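import Pool.Agent.Q86.HModEx

set_option autoImplicit false

open Pool.Agent.Q86.HMod

/-- An idempotent linear map satisfying the ternary identity that is not contractive and is not
a conditional expectation. -/
theorem Pool.Agent.Results.MP_0a1256_an.NotCE.result :
    ∃ (B : Type) (_ : NonUnitalCStarAlgebra B) (E : HilbertModule.{0, 0} B)
      (F : Submodule ℂ E.carrier) (P : E.carrier →ₗ[ℂ] E.carrier),
      IsTernary E F ∧ IsIdempotentOnto E F P ∧ TernaryIdentity E P ∧
      (∃ x, ‖x‖ < ‖P x‖) ∧ ¬ ExtendsToCE E F P :=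
  ⟨ℂ × ℂ, inferInstance, self (ℂ × ℂ), _, skew, isTernary_range_skew, isIdempotentOnto_skew,
    skew_identity, ⟨_, skew_norm⟩, not_extends_skew _⟩
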